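import Pool.Agent.E8helper59.PN.Stm2

set_option autoImplicit false

/-!
# Products of parallelepipeds
-/

open Set

namespace Pool.Agent.E8helper33.PN

open Pool.Agent.E8helper59.PN

/-- splitting of the coordinates -/
def spl (n₁ n₂ : ℕ) : (Fin (n₁ + n₂) → ℝ) ≃ₗ[ℝ] (Fin n₁ → ℝ) × (Fin n₂ → ℝ) where
  toFun x := (fun i => x (Fin.castAdd n₂ i), fun i => x (Fin.natAdd n₁ i))
  map_add' _ _ := rfl
  map_smul' _ _ := rfl
  invFun p := Fin.append p.1 p.2
  left_inv x := by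
    funext i
    refine Fin.addCases (fun j => ?_) (fun j => ?_) i
    · exact Fin.append_left _ _ _
    · exact Fin.append_right _ _ _
  right_inv p := by
    refine Prod.ext ?_ ?_
    · funext i
      exact Fin.append_left _ _ _
    · funext i
      exact Fin.append_right _ _ _

theorem t_JPAR : S_JPAR := by
  rintro n₁ n₂ F₁ F₂ ⟨T₁, rfl⟩ ⟨T₂, rfl⟩
  refine ⟨((spl n₁ n₂).toAffineEquiv.trans (T₁.prodCongr T₂)).trans
    (spl n₁ n₂).symm.toAffineEquiv, ?_⟩
  ext x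
  constructor
  · rintro ⟨⟨a, ha, h1⟩, ⟨b, hb, h2⟩⟩
    refine ⟨(spl n₁ n₂).symm (a, b), ?_, ?_⟩
    · intro i
      refine Fin.addCases (fun j => ?_) (fun j => ?_) i
      · show Fin.append a b (Fin.castAdd n₂ j) ∈ Icc (0 : ℝ) 1
        rw [Fin.append_left]
        exact ha j
      · show Fin.append a b (Fin.natAdd n₁ j) ∈ Icc (0 : ℝ) 1
        rw [Fin.append_right]
        exact hb j
    · show (spl n₁ n₂).symm ((T₁.prodCongr T₂) (spl n₁ n₂ ((spl n₁ n₂).symm (a, b)))) = x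
      rw [LinearEquiv.apply_symm_apply, LinearEquiv.symm_apply_eq]
      show (T₁ a, T₂ b) = _
      rw [h1, h2]
      rfl
  · rintro ⟨y, hy, rfl⟩
    have h : spl n₁ n₂ ((spl n₁ n₂).symm ((T₁.prodCongr T₂) (spl n₁ n₂ y))) =
        (T₁ (spl n₁ n₂ y).1, T₂ (spl n₁ n₂ y).2) := by
      rw [LinearEquiv.apply_symm_apply]
      rfl
    refine ⟨⟨(spl n₁ n₂ y).1, fun i => hy _, (congrArg Prod.fst h).symm⟩,
      ⟨(spl n₁ n₂ y).2, fun i => hy _, (congrArg Prod.snd h).symm⟩⟩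

end Pool.Agent.E8helper33.PN
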